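import Pool.Agent.X144.MT.Final

/-!
# MP_0e5572_co, Q1: the monotone triangle polynomial at a row with one hole and one descent

`α(n+1; 1, ..., i-1, i+1, i, i+1, ..., n) = ∑_j (i - j) A_{n,j}` for all `n` and `1 ≤ i ≤ n - 1`.
-/

namespace Pool.Agent.Results.MP_0e5572_co.HoleAndDescent

open MvPolynomial Pool.Agent.X144.MT

/-- The entry number `t` (counted from `0`) of the row obtained from `1, 2, ..., n` by inserting an
additional entry `i + 1` directly before the entry `i`. -/
def hrow (i t : ℕ) : ℤ := if t + 1 < i then t + 1 else if t + 1 = i then i + 1 else t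

theorem ofFn_hrow (u v : ℕ) : List.ofFn (fun t : Fin (u + v + 3) => hrow (u + 1) t)
    = iv 1 u ++ ((u : ℤ) + 2) :: ((u : ℤ) + 1) :: ((u : ℤ) + 2) :: iv ((u : ℤ) + 3) v := by
  have hiv : ∀ (w : ℕ) (a : ℤ) (t : ℕ) (h : t < (iv a w).length), (iv a w)[t] = a + t := by
    intro w
    induction w with
    | zero => intro a t h; simp [iv] at h
    | succ w ih =>
      intro a t h
      cases t with
      | zero => simp [iv]
      | succ t =>
        simp only [iv, List.getElem_cons_succ]
        rw [ih]
        push_cast; ring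
  apply List.ext_getElem
  · simp [iv_length]; ring
  · intro t h1 h2
    rw [List.getElem_ofFn]
    simp only [List.length_ofFn] at h1
    by_cases ht : t < u
    · rw [List.getElem_append_left (by rw [iv_length]; exact ht), hiv]
      simp only [hrow]
      rw [if_pos (by omega)]
      ring
    · rw [List.getElem_append_right (by rw [iv_length]; omega)]
      obtain ⟨s, rfl⟩ := Nat.exists_eq_add_of_le (not_lt.1 ht)
      simp only [iv_length, Nat.add_sub_cancel_left, hrow]
      rw [if_neg (by omega)]
      cases s with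
      | zero => simp; ring
      | succ s =>
        rw [if_neg (by omega)]
        cases s with
        | zero => simp
        | succ s =>
          cases s with
          | zero => simp
          | succ s =>
            simp only [List.getElem_cons_succ]
            rw [hiv]
            push_cast; ring

/-- **Main result.**  For every `n ≥ 1` there is exactly one polynomial that counts the monotone
triangles with a given strictly increasing bottom row; and for all `n` and `1 ≤ i ≤ n - 1` its value
at the row `1, ..., i-1, i+1, i, i+1, ..., n` is `∑_j (i - j) A_{n,j}`, where `A_{n,j}` is the number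
of alternating sign matrices of size `n` whose first row has its `1` in column `j`; twice this value
is `(2i - n - 1)` times the number of alternating sign matrices of size `n`. -/
theorem result :
    (∀ n : ℕ, ∃! P : MvPolynomial (Fin (n + 1)) ℚ, IsAlpha P) ∧
    ∀ (n : ℕ) (P : MvPolynomial (Fin (n + 1)) ℚ), IsAlpha P → ∀ i : ℕ, 1 ≤ i → i < n →
      eval (fun t : Fin (n + 1) => (hrow i t : ℚ)) P = ∑ j ∈ Finset.Icc 1 n, ((i : ℚ) - j) * refASM n j ∧
      2 * eval (fun t : Fin (n + 1) => (hrow i t : ℚ)) P = (2 * (i : ℚ) - n - 1) * numASM n := by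
  refine ⟨existsUnique_alpha, ?_⟩
  intro n P hP i hi hin
  obtain ⟨u, rfl⟩ : ∃ u, i = u + 1 := ⟨i - 1, by omega⟩
  obtain ⟨v, rfl⟩ : ∃ v, n = u + v + 2 := ⟨n - u - 2, by omega⟩
  have h1 : eval (fun t : Fin (u + v + 2 + 1) => (hrow (u + 1) t : ℚ)) P = a u v := by
    rw [hP.eval_eq (fun t => hrow (u + 1) t), ofFn_hrow]
    rfl
  have h2 := two_mul_a u v
  have h3 : (An (u + v + 2) : ℚ) = numASM (u + v + 2) := by
    have := ncard_ASM (u + v + 2)
    rw [← this]
    rfl
  have h4 : (2 * a u v : ℚ) = ((u : ℚ) - v - 1) * numASM (u + v + 2) := by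
    rw [← h3]
    exact_mod_cast h2
  have h5 := sum_refASM (u + v + 1) (u + 1)
  have h6 : 2 * eval (fun t : Fin (u + v + 2 + 1) => (hrow (u + 1) t : ℚ)) P
      = (2 * ((u + 1 : ℕ) : ℚ) - ((u + v + 2 : ℕ) : ℚ) - 1) * numASM (u + v + 2) := by
    rw [h1, h4]
    push_cast
    ring
  refine ⟨?_, h6⟩
  have h7 : 2 * eval (fun t : Fin (u + v + 2 + 1) => (hrow (u + 1) t : ℚ)) P
      = 2 * ∑ j ∈ Finset.Icc 1 (u + v + 2), (((u + 1 : ℕ) : ℚ) - j) * refASM (u + v + 2) j := by
    rw [h6, h5]
    push_cast
    ring
  linarith

end Pool.Agent.Results.MP_0e5572_co.HoleAndDescent
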